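import Pool.Agent.Q258.RM.TwoSided

/-!
# Large deviations of both signs and large leads among the residue classes, for every modulus

For every modulus `q` in a range `[x^(1 - 1/(2m) + δ), x]` and every large `x` (no exception and no
hypothesis) the numbers `ψ(x,q,a)`, `a` reduced modulo `q`, deviate from their mean in both
directions, and differ from each other for many pairs of classes by the square root of the mean.
-/

set_option autoImplicit false

open Finset

namespace Pool.Agent.Results.MP_848d44_nt.BothSignsEveryModulus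

/-- `ψ(x,q,a)`: the sum of `Λ(n)` over the `n ≤ x` with `n ≡ a mod q`. -/
noncomputable def psi (x : ℝ) (q a : ℕ) : ℝ :=
  ∑ n ∈ (Icc 1 ⌊x⌋₊).filter (fun n => n ≡ a [MOD q]), ArithmeticFunction.vonMangoldt n

/-- The reduced residue classes modulo `q`. -/
def reduced (q : ℕ) : Finset ℕ := (range q).filter (fun a => a.Coprime q)

/-- The mean of `ψ(x,q,a)` over the reduced residue classes. -/
noncomputable def mean (x : ℝ) (q : ℕ) : ℝ := (∑ a ∈ reduced q, psi x q a) / Nat.totient q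

/-- The square root of `(x/φ(q)) (1 + log(x/q))`. -/
noncomputable def S (x : ℝ) (q : ℕ) : ℝ :=
  Real.sqrt (x / Nat.totient q * (1 + Real.log (x / q)))

/-- `(x/φ(q)) log x`; all `ψ(x,q,a)` are at most twice this number. -/
noncomputable def R (x : ℝ) (q : ℕ) : ℝ := x / Nat.totient q * Real.log x

/-- For every integer `m ≥ 2` and `δ > 0` there are `c > 0` and `x₀` such that for all real
`x ≥ x₀` and all integers `q ≤ x` with `x ≤ q x ^ (1 / (2 m) - δ)`:
* at least `c φ(q) (S / R) ^ (2m / (2m - 1))` reduced classes `a` have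
  `ψ(x,q,a) ≥ mean + c S (S / R) ^ (1 / (2m - 1))`;
* at least as many have `ψ(x,q,a) ≤ mean - c S (S / R) ^ (1 / (2m - 1))`;
* at least `c φ(q) ^ 2 (S / R) ^ (2m / (2m - 1))` pairs `(a, b)` of reduced classes have
  `ψ(x,q,a) ≥ ψ(x,q,b) + c S`. -/
theorem result : ∀ m : ℕ, 2 ≤ m → ∀ δ : ℝ, 0 < δ → ∃ c x₀ : ℝ, 0 < c ∧
    ∀ x : ℝ, x₀ ≤ x → ∀ q : ℕ, (q : ℝ) ≤ x → x ≤ q * x ^ (1 / (2 * (m : ℝ)) - δ) →
      (c * Nat.totient q * (S x q / R x q) ^ (2 * (m : ℝ) / (2 * m - 1)) ≤
        (((reduced q).filter (fun a => mean x q +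
          c * S x q * (S x q / R x q) ^ (1 / (2 * (m : ℝ) - 1)) ≤ psi x q a)).card : ℝ)) ∧
      (c * Nat.totient q * (S x q / R x q) ^ (2 * (m : ℝ) / (2 * m - 1)) ≤
        (((reduced q).filter (fun a => psi x q a ≤ mean x q -
          c * S x q * (S x q / R x q) ^ (1 / (2 * (m : ℝ) - 1)))).card : ℝ)) ∧
      (c * (Nat.totient q : ℝ) ^ 2 * (S x q / R x q) ^ (2 * (m : ℝ) / (2 * m - 1)) ≤
        (((reduced q ×ˢ reduced q).filter (fun P : ℕ × ℕ =>
          psi x q P.2 + c * S x q ≤ psi x q P.1)).card : ℝ)) := by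
  intro m hm δ hδ
  obtain ⟨c, x₀, hc, h⟩ := Pool.Agent.Q258.RM.two_sided m hm δ hδ
  exact ⟨c, x₀, hc, fun x hx q h1 h2 => h x hx q h1 h2 (S x q) (R x q) rfl rfl⟩

end Pool.Agent.Results.MP_848d44_nt.BothSignsEveryModulus
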