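import Pool.Agent.Q112.ML.Fin
import Pool.Agent.Q120.GM.Exists

/-!
# The exact size of the error in Montgomery's conjecture in the sieved models of the primes

`Q` is the level: the random set `A` contains each `n` coprime to `Q` independently with
probability `min(1, (Q/φ(Q))/log n)`, and no other `n`. For `Q = 1` this is the model of Cramér.
`psi A x q a` is the sum of `log n` over the `n ∈ A`, `n ≤ x`, `n ≡ a mod q`; its expected value is
`mean Q x q = (g/φ(g)) x/q`, `g = (q, Q)`, up to a bounded error, if `a` is coprime to `g`.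

In every model, almost surely:

* the maximal error for all moduli `q ≤ x` and all classes is `(√2 + o(1)) √(x/q) (log x)^{3/2} (loglog x)^{-1/2}`,
  and the constant `√2` is best possible;
* with `T = (2 log q + loglog x) log x` and `rate u = (1+u) log (1+u) - u`: in all classes modulo all `q ≤ x`,
  `psi ≤ (1+u) mean` if `mean · rate u ≥ (1+ε) T` and `psi ≥ (1-u) mean` if `mean · rate (-u) ≥ (1+ε) T`; and for all
  large `x = 2^j` and every size `Y` between `x^ε` and `x/(log x)^{1+ε}` of the moduli both are sharp: there are `q` in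
  `[Y/16, Y]` and classes with `psi ≥ (1+u) mean` whenever `mean · rate u ≤ (1-ε) T`, and
  classes with `psi ≤ (1-v) mean` whenever `v ≤ 1-ε` and `mean · rate (-v) ≤ (1-ε) T`.
-/

set_option autoImplicit false

namespace Pool.Agent.Results.MP_848d44_nt.ExactErrorInTheModels

open MeasureTheory Filter Pool.Agent.Q120.GM
open scoped Topology

/-- The sum of `log n` over the `n ∈ S`, `1 ≤ n ≤ x`, `n ≡ a mod q`. -/
noncomputable def psi (S : Set ℕ) (x q a : ℕ) : ℝ :=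
  ∑ n ∈ (Finset.Icc 1 x).filter (fun n => n ≡ a [MOD q]), S.indicator (fun m : ℕ => Real.log m) n

/-- `(g/φ(g)) x/q`, `g = (q, Q)`. -/
noncomputable def mean (Q x q : ℕ) : ℝ := (Nat.gcd q Q : ℝ) / Nat.totient (Nat.gcd q Q) * (x / q)

/-- The rate function of the Poisson distribution. -/
noncomputable def rate (u : ℝ) : ℝ := (1 + u) * Real.log (1 + u) - u

/-- The function `(2 log q + loglog x) log x`. -/
noncomputable def T (x q : ℕ) : ℝ := (2 * Real.log q + Real.log (Real.log x)) * Real.log x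

/-- The normaliser `√(x/q) (log x)^{3/2} (loglog x)^{-1/2}`. -/
noncomputable def size (x q : ℕ) : ℝ := √((x : ℝ) / q) * Real.log x ^ (3 / 2 : ℝ) / √(Real.log (Real.log x))

theorem psi_eq (S : Set ℕ) (x q a : ℕ) : psi S x q a = Pool.Agent.Q112.ML.psi S x q a := by
  unfold psi Pool.Agent.Q112.ML.psi Pool.Agent.Q112.ML.sm Pool.Agent.Q112.ML.cls Pool.Agent.Q112.ML.ind
  refine Finset.sum_congr rfl fun n _ => ?_
  by_cases h : n ∈ S
  · rw [Set.indicator_of_mem h, Set.indicator_of_mem h, mul_one]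
  · rw [Set.indicator_of_notMem h, Set.indicator_of_notMem h, mul_zero]

theorem mean_eq (Q x q : ℕ) : mean Q x q = Pool.Agent.Q112.LE.kap Q q * ((x : ℝ) / q) := rfl

theorem rate_eq (u : ℝ) : rate u = Pool.Agent.Q112.ML.rate u := rfl

/-- **The exact size of the error.** The models exist, and in every model of level `Q ≥ 1`, for every `ε > 0`, almost
surely: (1) `|psi - mean| ≤ (√2 + ε) √(x/q) (log x)^{3/2} (loglog x)^{-1/2}` for all large `x`, all `q ≤ x` and all `a`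
with `(a, q, Q) = 1`; (2) for all large `X` there are `x ∈ [X^{1-ε}, X]`, `q ≤ x` and `a` coprime to `q` with
`psi - mean ≥ (√2 - ε) √(x/q) (log x)^{3/2} (loglog x)^{-1/2}`; (3) for all large `x`, all `q ≤ x`, all `a` with
`(a, q, Q) = 1` and all `u > 0`: `psi ≤ (1+u) mean` if `mean · rate u ≥ (1+ε) T`, and `psi ≥ (1-u) mean` if `u ≤ 1` and
`mean · rate (-u) ≥ (1+ε) T`; (4) if `ε < 1`, for all large `x = 2^j` and all `Y ∈ [x^ε, x/(log x)^{1+ε}]` there are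
`q ∈ [Y/16, Y]` and `a` coprime to `q` such that `psi ≥ (1+u) mean` for all `u > 0` with
`mean · rate u ≤ (1-ε) T`, and there are such `q` and `a` such that `psi ≤ (1-v) mean` for all `0 < v ≤ 1-ε` with
`mean · rate (-v) ≤ (1-ε) T`. -/
theorem result : (∀ Q : ℕ, IsModel (prodMeasure (level Q)) (level Q) (trueSet (ι := ℕ))) ∧
    ∀ (Ω : Type) (_ : MeasurableSpace Ω) (μ : Measure Ω) (_ : IsProbabilityMeasure μ) (A : Ω → Set ℕ) (Q : ℕ),
      1 ≤ Q → IsModel μ (level Q) A → ∀ ε : ℝ, 0 < ε → ∀ᵐ ω ∂μ,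
        (∀ᶠ x : ℕ in atTop, ∀ q a : ℕ, 1 ≤ q → q ≤ x → Nat.gcd a (Nat.gcd q Q) = 1 →
          |psi (A ω) x q a - mean Q x q| ≤ (√2 + ε) * size x q) ∧
        (∀ᶠ X : ℕ in atTop, ∃ x q a : ℕ, (X : ℝ) ^ (1 - ε) ≤ x ∧ x ≤ X ∧ 1 ≤ q ∧ q ≤ x ∧ a < q ∧ Nat.Coprime a q ∧
          (√2 - ε) * size x q ≤ psi (A ω) x q a - mean Q x q) ∧
        (∀ᶠ x : ℕ in atTop, ∀ q a : ℕ, 1 ≤ q → q ≤ x → Nat.gcd a (Nat.gcd q Q) = 1 → ∀ u : ℝ, 0 < u →
          ((1 + ε) * T x q ≤ mean Q x q * rate u → psi (A ω) x q a ≤ (1 + u) * mean Q x q) ∧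
          (u ≤ 1 → (1 + ε) * T x q ≤ mean Q x q * rate (-u) → (1 - u) * mean Q x q ≤ psi (A ω) x q a)) ∧
        (ε < 1 → ∀ᶠ j : ℕ in atTop, ∀ Y : ℝ, ((2 : ℝ) ^ j) ^ ε ≤ Y → Y * Real.log ((2 : ℝ) ^ j) ^ (1 + ε) ≤ 2 ^ j →
          (∃ q a : ℕ, Y / 16 ≤ q ∧ (q : ℝ) ≤ Y ∧ a < q ∧ Nat.Coprime a q ∧ ∀ u : ℝ, 0 < u →
            mean Q (2 ^ j) q * rate u ≤ (1 - ε) * T (2 ^ j) q → (1 + u) * mean Q (2 ^ j) q ≤ psi (A ω) (2 ^ j) q a) ∧
          (∃ q a : ℕ, Y / 16 ≤ q ∧ (q : ℝ) ≤ Y ∧ a < q ∧ Nat.Coprime a q ∧ ∀ v : ℝ, 0 < v → v ≤ 1 - ε →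
            mean Q (2 ^ j) q * rate (-v) ≤ (1 - ε) * T (2 ^ j) q →
              psi (A ω) (2 ^ j) q a ≤ (1 - v) * mean Q (2 ^ j) q)) := by
  refine ⟨fun Q => isModel (level Q) (level_nonneg Q) (level_le_one Q), ?_⟩
  intro Ω _ μ _ A Q hQ hA ε hε
  obtain ⟨δ, hδ, hmu⟩ := Pool.Agent.Q112.ML.f_mu Q hQ ε hε
  have h4 : ∀ᵐ ω ∂μ, ε < 1 → ∀ᶠ j : ℕ in atTop, ∀ Y : ℝ, ((2 : ℝ) ^ j) ^ ε ≤ Y →
      Y * Real.log ((2 : ℝ) ^ j) ^ (1 + ε) ≤ 2 ^ j →
      (∃ q a : ℕ, Y / 16 ≤ q ∧ (q : ℝ) ≤ Y ∧ a < q ∧ Nat.Coprime a q ∧ ∀ u : ℝ, 0 < u →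
        mean Q (2 ^ j) q * rate u ≤ (1 - ε) * T (2 ^ j) q → (1 + u) * mean Q (2 ^ j) q ≤ psi (A ω) (2 ^ j) q a) ∧
      (∃ q a : ℕ, Y / 16 ≤ q ∧ (q : ℝ) ≤ Y ∧ a < q ∧ Nat.Coprime a q ∧ ∀ v : ℝ, 0 < v → v ≤ 1 - ε →
        mean Q (2 ^ j) q * rate (-v) ≤ (1 - ε) * T (2 ^ j) q →
          psi (A ω) (2 ^ j) q a ≤ (1 - v) * mean Q (2 ^ j) q) := by
    by_cases hε1 : ε < 1
    · filter_upwards [Pool.Agent.Q112.ML.lo_unif hQ hA hε hε1] with ω hω _
      filter_upwards [hω] with j hj Y hY1 hY2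
      obtain ⟨⟨q1, a1, g1, g2, g3, g4, g5, g6⟩, ⟨q2, a2, k1, k2, k3, k4, k5, k6⟩⟩ := hj Y hY1 hY2
      refine ⟨⟨q1, a1, g1, g2, g4, g5, fun u hu h => ?_⟩, ⟨q2, a2, k1, k2, k4, k5, fun v hv hv1 h => ?_⟩⟩
      · have := g6 u hu
        rw [psi_eq]
        simp only [mean_eq, T, Nat.cast_pow, Nat.cast_ofNat, rate_eq] at h ⊢
        exact this (by linarith)
      · have := k6 v hv hv1
        rw [psi_eq]
        simp only [mean_eq, T, Nat.cast_pow, Nat.cast_ofNat, rate_eq] at h ⊢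
        exact this (by linarith)
    · exact Eventually.of_forall fun ω h => absurd h hε1
  filter_upwards [Pool.Agent.Q112.ML.f_up Ω μ A Q hQ hA δ hδ, Pool.Agent.Q112.ML.f_ex Ω μ A Q hQ hA ε hε,
    Pool.Agent.Q112.ML.f_up Ω μ A Q hQ hA ε hε, h4] with ω h1 h2 h3 h4
  refine ⟨?_, ?_, ?_, h4⟩
  · filter_upwards [hmu (A ω) h1] with x hx q a hq hqx hg
    have := hx q a hq hqx hg
    rw [psi_eq, mean_eq, size]
    refine this.trans (le_of_eq ?_)
    ring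
  · filter_upwards [h2] with X hX
    obtain ⟨x, q, a, g1, g2, -, g3, g4, g5, g6, g7⟩ := hX
    refine ⟨x, q, a, g1, g2, g3, g4, g5, g6, ?_⟩
    rw [psi_eq, mean_eq, size]
    refine le_trans (le_of_eq ?_) g7
    ring
  · filter_upwards [h3] with x hx q a hq hqx hg u hu
    obtain ⟨g1, g2⟩ := hx q a hq hqx hg u hu
    rw [psi_eq, mean_eq, T]
    rw [mul_assoc] at g1 g2
    exact ⟨g1, g2⟩

end Pool.Agent.Results.MP_848d44_nt.ExactErrorInTheModels
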