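import Pool.Agent.Q93.EHC.Fin

/-!
# The Elliott-Halberstam conjecture and fixed residue systems: measure and category

The maximum `E(x; q)` of the problem allows a different class modulo `q` for every `x`. We compare it
with residue systems `c` which do not depend on `x`: one reduced class `c(q)` for every modulus `q`.
The residue systems form the compact group `∏ (ℤ/q)ˣ`.

(1) The conjecture holds if and only if it holds along every fixed residue system, if and only if it
holds along the residue systems of a set which is not meagre; even the absolute values can be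
replaced by fixed signs `ε(q)` (again for a set of pairs `(c, ε)` which is not meagre). Hence one
generic pair `(c, ε)` decides the conjecture. (2) The same is true for every single level `Q(x)` and
power of the logarithm, and if the classes modulo `q` are restricted to arbitrary nonempty sets `S q`.

(3) In contrast, the bound of the conjecture holds unconditionally for almost all residue systems
for every probability measure with uniform marginals (for instance the Haar measure of the group; no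
independence is assumed). More generally, if two independent copies of a random residue system
coincide modulo at most `K n ^ β (log n) ^ D` of the moduli up to `n` on average, `0 ≤ β`, then almost
surely the bound of the conjecture holds for all large `x` up to the level `(x / (log x) ^ B)^(1/(1+β))`.
For `β = 1` (no randomness) this is the level `1/2` of Bombieri and Vinogradov. So if the conjecture
is false, its bound holds along almost all residue systems, but along a meagre set of them only.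
-/

set_option autoImplicit false

namespace Pool.Agent.Results.MP_848d44_nt.MeasureAndCategory

open Finset MeasureTheory

/-- `π(x)` -/
noncomputable def primePi (x : ℕ) : ℕ := ((Icc 1 x).filter (fun p : ℕ => p.Prime)).card

/-- `π(x; q, a) - π(x) / φ(q)` -/
noncomputable def err (x q : ℕ) (a : ZMod q) : ℝ :=
  (((Icc 1 x).filter (fun p : ℕ => p.Prime ∧ (p : ZMod q) = a)).card : ℝ) -
    (primePi x : ℝ) / (Nat.totient q : ℝ)

/-- `E(x; q)` -/
noncomputable def E (x q : ℕ) : ℝ := ⨆ a : (ZMod q)ˣ, |err x q a|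

/-- the conjecture of Elliott and Halberstam -/
def EH : Prop := ∀ θ : ℝ, θ < 1 → ∀ A : ℝ, 0 < A → ∃ C : ℝ, 0 < C ∧ ∀ x : ℕ, 2 < x →
  ∑ q ∈ Icc 1 ⌊(x : ℝ) ^ θ⌋₊, E x q ≤ C * x * Real.log x ^ (-A)

/-- the bound of the conjecture along a fixed residue system: `c k` is the class modulo `k + 1` -/
def Along (c : ∀ k : ℕ, (ZMod (k + 1))ˣ) : Prop :=
  ∀ θ : ℝ, θ < 1 → ∀ A : ℝ, 0 < A → ∃ C : ℝ, ∀ x : ℕ, 2 < x →
    ∑ k ∈ range ⌊(x : ℝ) ^ θ⌋₊, |err x (k + 1) (c k : ZMod (k + 1))| ≤
      C * (x * Real.log x ^ (-A))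

/-- the same with fixed signs and no absolute values: `p k` is a class modulo `k + 1` and a sign -/
def AlongSigned (p : ∀ k : ℕ, (ZMod (k + 1))ˣ × ℤˣ) : Prop :=
  ∀ θ : ℝ, θ < 1 → ∀ A : ℝ, 0 < A → ∃ C : ℝ, ∀ x : ℕ, 2 < x →
    |∑ k ∈ range ⌊(x : ℝ) ^ θ⌋₊, (((p k).2 : ℤ) : ℝ) * err x (k + 1) ((p k).1 : ZMod (k + 1))| ≤
      C * (x * Real.log x ^ (-A))

section Restricted

variable (S : ∀ k : ℕ, Set (ZMod (k + 1))ˣ) (Q : ℕ → ℕ) (A : ℝ)

/-- the maxima over the classes in `S k`, for the moduli `k + 1 ≤ Q x` -/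
def MaxBound : Prop := ∃ C : ℝ, ∀ x : ℕ, 2 < x →
  ∑ k ∈ range (Q x), (⨆ a : S k, |err x (k + 1) ((a : (ZMod (k + 1))ˣ) : ZMod (k + 1))|) ≤
    C * (x * Real.log x ^ (-A))

/-- the bound for a fixed system of classes in the sets `S k` -/
def SysBound (c : ∀ k : ℕ, S k) : Prop := ∃ C : ℝ, ∀ x : ℕ, 2 < x →
  ∑ k ∈ range (Q x), |err x (k + 1) ((c k : (ZMod (k + 1))ˣ) : ZMod (k + 1))| ≤
    C * (x * Real.log x ^ (-A))

/-- the bound for a fixed system of classes in the sets `S k` and fixed signs -/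
def SignBound (p : ∀ k : ℕ, S k × ℤˣ) : Prop := ∃ C : ℝ, ∀ x : ℕ, 2 < x →
  |∑ k ∈ range (Q x), (((p k).2 : ℤ) : ℝ) *
    err x (k + 1) (((p k).1 : (ZMod (k + 1))ˣ) : ZMod (k + 1))| ≤ C * (x * Real.log x ^ (-A))

end Restricted

section Random

variable {Ω : Type} [MeasurableSpace Ω] (μ : Measure Ω) (c : ∀ k : ℕ, Ω → (ZMod (k + 1))ˣ)

/-- all marginals are uniform: `P(c k = a) = 1 / φ(k + 1)` for all reduced classes -/
def Uniform : Prop :=
  ∀ (k : ℕ) (a : (ZMod (k + 1))ˣ), μ.real {ω | c k ω = a} = 1 / (Nat.totient (k + 1) : ℝ)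

/-- the expected number of the moduli up to `n` modulo which two independent copies of the random
system coincide is at most `K n ^ β (log (n + 2)) ^ D` -/
def Collisions (β K : ℝ) (D : ℕ) : Prop :=
  ∀ n : ℕ, ∑ k ∈ range n, ∑ a : (ZMod (k + 1))ˣ, μ.real {ω | c k ω = a} ^ 2 ≤
    K * (n : ℝ) ^ β * Real.log (n + 2) ^ D

/-- almost surely, for all large `x` and all `n` with `n ^ (1 + β) (log x) ^ B ≤ x`: the sum of the
errors over the moduli up to `n` is at most `x / (log x) ^ U` -/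
def AlmostSure (β : ℝ) (B U : ℕ) : Prop :=
  ∀ᵐ ω ∂μ, ∃ x₀ : ℕ, ∀ x : ℕ, x₀ ≤ x → ∀ n : ℕ, (n : ℝ) ^ (1 + β) * Real.log x ^ B ≤ x →
    ∑ k ∈ range n, |err x (k + 1) (c k ω : ZMod (k + 1))| ≤ x / Real.log x ^ U

end Random

lemma eh_iff : EH ↔ Pool.Agent.Q93.EHC.Full := by
  have key : ∀ (θ : ℝ) (x : ℕ), ∑ q ∈ Icc 1 ⌊(x : ℝ) ^ θ⌋₊, E x q =
      ∑ k ∈ range (Pool.Agent.Q93.EHC.lev θ x),
        Pool.Agent.Q93.EHC.maxErr Pool.Agent.Q93.EHC.idm x k := by
    intro θ x
    rw [← Pool.Agent.Q93.EHC.sum_shift (fun q => E x q)]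
    rfl
  constructor
  · intro h θ hθ A hA
    obtain ⟨C, -, hC⟩ := h θ hθ A hA
    refine ⟨C, fun x hx => ?_⟩
    rw [← key, ← mul_assoc]
    exact hC x hx
  · intro h θ hθ A hA
    obtain ⟨C, hC⟩ := h θ hθ A hA
    refine ⟨max C 1, by positivity, fun x hx => ?_⟩
    rw [key, mul_assoc]
    refine (hC x hx).trans ?_
    have h1 : 0 ≤ Real.log x := Real.log_natCast_nonneg x
    exact mul_le_mul_of_nonneg_right (le_max_left _ _) (by positivity)

theorem result :
    ((EH ↔ ∀ c, Along c) ∧ (EH ↔ ¬ IsMeagre {c | Along c}) ∧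
      (EH ↔ ¬ IsMeagre {p | AlongSigned p})) ∧
    (∀ S : ∀ k : ℕ, Set (ZMod (k + 1))ˣ, (∀ k, (S k).Nonempty) → ∀ (Q : ℕ → ℕ) (A : ℝ),
      (MaxBound S Q A ↔ ¬ IsMeagre {c | SysBound S Q A c}) ∧
      (MaxBound S Q A ↔ ¬ IsMeagre {p | SignBound S Q A p})) ∧
    (∀ (Ω : Type) [MeasurableSpace Ω] (μ : Measure Ω) [IsProbabilityMeasure μ]
      (c : ∀ k : ℕ, Ω → (ZMod (k + 1))ˣ),
      (∀ (k : ℕ) (a : (ZMod (k + 1))ˣ), MeasurableSet {ω | c k ω = a}) →
      (Uniform μ c → ∀ᵐ ω ∂μ, Along fun k => c k ω) ∧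
      (∀ (β K : ℝ) (D : ℕ), 0 ≤ β → Collisions μ c β K D →
        ∀ U : ℕ, ∃ B : ℕ, AlmostSure μ c β B U)) := by
  refine ⟨⟨?_, ?_, ?_⟩, ?_, ?_⟩
  · rw [eh_iff]
    exact Pool.Agent.Q93.EHC.full_sys.1
  · rw [eh_iff]
    exact Pool.Agent.Q93.EHC.full_sys.2
  · rw [eh_iff]
    exact Pool.Agent.Q93.EHC.full_sign.2
  · intro S hS Q A
    haveI : ∀ k, Nonempty (S k) := fun k => (hS k).to_subtype
    exact Pool.Agent.Q93.EHC.cat (Y := fun k => S k) (ι := fun k a => (a : (ZMod (k + 1))ˣ)) Q A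
  · intro Ω _ μ _ c hc
    refine ⟨fun hu => Pool.Agent.Q93.EHC.unif μ hc hu, fun β K D hβ hcoll U => ?_⟩
    have hcoll' : ∀ n : ℕ, ∑ k ∈ range n, ∑ a : (ZMod (k + 1))ˣ, Pool.Agent.Q93.EHC.pr μ c k a ^ 2 ≤
        max K 0 * (n : ℝ) ^ β * Real.log (n + 2) ^ D := by
      intro n
      refine (hcoll n).trans ?_
      have h1 : 0 ≤ Real.log ((n : ℝ) + 2) := Real.log_nonneg (by
        have : (0:ℝ) ≤ n := Nat.cast_nonneg n
        linarith)
      have h2 : 0 ≤ (n : ℝ) ^ β * Real.log ((n : ℝ) + 2) ^ D := by positivity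
      rw [mul_assoc, mul_assoc]
      exact mul_le_mul_of_nonneg_right (le_max_left _ _) h2
    exact Pool.Agent.Q93.EHC.as μ hc β (max K 0) D hβ (le_max_right _ _) hcoll' U

end Pool.Agent.Results.MP_848d44_nt.MeasureAndCategory
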