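import Pool.Agent.Q145.MD.Reg

set_option autoImplicit false
set_option maxHeartbeats 4000000

/-!
# The square root law for the primes in all reduced classes, for random samples of the progressions

Montgomery's conjecture says that the error term in the prime number theorem for the progression
`a mod q` is about the square root of the number of its terms, for all reduced classes `a`.  We
prove the exact form of such a law for random samples of the progressions, for almost all moduli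
`d` up to a power less than `x^(1/2)`: if `s_1, ..., s_K` is a random sequence from `[1, Y]`,
`Y ≥ D^(1 + ε)`, then the largest and the smallest of the numbers of the primes among
`a + s_1 d, ..., a + s_K d`, over the reduced classes `a` modulo `d`, differ from the expected
number `μ` by `(1 + o(1)) (2 μ log φ(d))^(1/2)`; and for every `x ≥ 0` there are
`φ(d)^(1 - x^2/2 + o(1))` classes whose number of primes exceeds `μ` by `x (μ log φ(d))^(1/2)`.
-/

namespace Pool.Agent.Results.MP_848d44_nt.SquareRootLaw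

open Finset

open scoped Classical

/-- All sequences of length `K` of integers from `[1, Y]`. -/
def Seqs (Y K : ℕ) : Finset (Fin K → ℕ) := Fintype.piFinset (fun _ : Fin K => Icc 1 Y)

/-- The reduced classes modulo `d`, represented in `[1, d]`. -/
noncomputable def Classes (d : ℕ) : Finset ℕ := (Icc 1 d).filter (fun a => a.Coprime d)

/-- The number of the primes among `a + s_1 d, ..., a + s_K d`. -/
noncomputable def count (d : ℕ) {K : ℕ} (s : Fin K → ℕ) (a : ℕ) : ℝ :=
  ((univ.filter (fun i : Fin K => (a + s i * d).Prime)).card : ℝ)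

/-- The expected number of primes in the sample, `K π(dY) / (φ(d) Y)`. -/
noncomputable def expected (d Y K : ℕ) : ℝ :=
  K * ((((Icc 1 (d * Y)).filter Nat.Prime).card : ℝ) / d.totient / Y)

/-- The unit of the deviations, `(μ log φ(d))^(1/2)`. -/
noncomputable def unit (d Y K : ℕ) : ℝ := Real.sqrt (expected d Y K * Real.log d.totient)

/-- The square root law with precision `ε` for the sample `s`. -/
def SqrtLaw (ε : ℝ) (d Y K : ℕ) (s : Fin K → ℕ) : Prop :=
  (∀ a ∈ Classes d, |count d s a - expected d Y K| ≤ (1 + ε) * Real.sqrt 2 * unit d Y K) ∧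
  (∃ a ∈ Classes d, (1 - ε) * Real.sqrt 2 * unit d Y K ≤ count d s a - expected d Y K) ∧
  (∃ a ∈ Classes d, (1 - ε) * Real.sqrt 2 * unit d Y K ≤ expected d Y K - count d s a) ∧
  ∀ x : ℝ, 0 ≤ x →
    (((Classes d).filter (fun a => x * unit d Y K ≤ count d s a - expected d Y K)).card : ℝ) ≤
      (d.totient : ℝ) ^ (1 - x ^ 2 / 2 + ε) ∧
    (((Classes d).filter (fun a => x * unit d Y K ≤ expected d Y K - count d s a)).card : ℝ) ≤
      (d.totient : ℝ) ^ (1 - x ^ 2 / 2 + ε) ∧
    (x ^ 2 ≤ 2 * (1 - ε) →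
      (d.totient : ℝ) ^ (1 - x ^ 2 / 2 - ε) ≤
        (((Classes d).filter (fun a => x * unit d Y K ≤ count d s a - expected d Y K)).card : ℝ) ∧
      (d.totient : ℝ) ^ (1 - x ^ 2 / 2 - ε) ≤
        (((Classes d).filter (fun a => x * unit d Y K ≤ expected d Y K - count d s a)).card : ℝ))

open Pool.Agent.Q145.MD

theorem count_eq {K : ℕ} (d : ℕ) (s : Fin K → ℕ) (a : ℕ) :
    count d s a = (Pool.Agent.Q145.LD.hit (fun a s => (a + s * d).Prime) s a : ℝ) := by
  unfold count Pool.Agent.Q145.LD.hit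
  rw [card_filter]
  push_cast
  apply sum_congr rfl
  intro i _
  split_ifs <;> rfl

theorem expected_eq (d Y K : ℕ) : expected d Y K = K * (refv d Y / Y) := by
  unfold expected refv Pool.Agent.H442R2.KF.piN
  rfl

/-- from the abstract law to the law -/
theorem of_mlaw (ε : ℝ) (hε : 0 < ε) (hε1 : ε < 1) (d Y K : ℕ) (hd : 1 ≤ d) (s : Fin K → ℕ)
    (hl : 0 < Real.log (d.totient : ℝ)) (hμ : 0 < expected d Y K)
    (h : MLaw ε (Real.sqrt (Real.log d.totient / expected d Y K)) (expected d Y K) (Real.log d.totient)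
      (Pool.Agent.Q145.RA.Cl d) (Pool.Agent.Q145.LD.hit (fun a s => (a + s * d).Prime) s)) : SqrtLaw ε d Y K s := by
  set μ := expected d Y K with hμd
  set A := Real.log (d.totient : ℝ) with hA
  set v := Real.sqrt (A / μ) with hv
  have hφ0 : (0 : ℝ) < d.totient := by exact_mod_cast Nat.totient_pos.2 (by omega)
  have hunit : unit d Y K = μ * v := by
    unfold unit
    rw [← hμd, ← hA, hv, Real.sqrt_div' _ hμ.le, Real.sqrt_mul hμ.le, ← mul_div_assoc]
    rw [eq_div_iff (Real.sqrt_pos.2 hμ).ne']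
    nth_rewrite 3 [← Real.mul_self_sqrt hμ.le]
    ring
  have hexp : ∀ t : ℝ, Real.exp (A * t) = (d.totient : ℝ) ^ t := by
    intro t
    rw [Real.rpow_def_of_pos hφ0]
  have hcl : ∀ p : ℕ → Prop, ((Classes d).filter p) = ((Pool.Agent.Q145.RA.Cl d).filter p) := fun p => rfl
  have hup : ∀ x : ℝ, (Classes d).filter (fun a => x * unit d Y K ≤ count d s a - expected d Y K) =
      (Pool.Agent.Q145.RA.Cl d).filter (fun n => μ * (1 + x * v) ≤
        (Pool.Agent.Q145.LD.hit (fun a s => (a + s * d).Prime) s n : ℝ)) := by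
    intro x
    rw [hcl]
    apply filter_congr
    intro a _
    rw [count_eq, hunit, ← hμd]
    constructor
    · intro h1
      nlinarith
    · intro h1
      nlinarith
  have hdn : ∀ x : ℝ, (Classes d).filter (fun a => x * unit d Y K ≤ expected d Y K - count d s a) =
      (Pool.Agent.Q145.RA.Cl d).filter (fun n => (Pool.Agent.Q145.LD.hit (fun a s => (a + s * d).Prime) s n : ℝ) ≤
        μ * (1 - x * v)) := by
    intro x
    rw [hcl]
    apply filter_congr
    intro a _
    rw [count_eq, hunit, ← hμd]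
    constructor
    · intro h1
      nlinarith
    · intro h1
      nlinarith
  have main : ∀ x : ℝ, 0 ≤ x →
    (((Classes d).filter (fun a => x * unit d Y K ≤ count d s a - expected d Y K)).card : ℝ) ≤
      (d.totient : ℝ) ^ (1 - x ^ 2 / 2 + ε) ∧
    (((Classes d).filter (fun a => x * unit d Y K ≤ expected d Y K - count d s a)).card : ℝ) ≤
      (d.totient : ℝ) ^ (1 - x ^ 2 / 2 + ε) ∧
    (x ^ 2 ≤ 2 * (1 - ε) →
      (d.totient : ℝ) ^ (1 - x ^ 2 / 2 - ε) ≤
        (((Classes d).filter (fun a => x * unit d Y K ≤ count d s a - expected d Y K)).card : ℝ) ∧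
      (d.totient : ℝ) ^ (1 - x ^ 2 / 2 - ε) ≤
        (((Classes d).filter (fun a => x * unit d Y K ≤ expected d Y K - count d s a)).card : ℝ)) := by
    intro x hx
    obtain ⟨h1, h2, h3⟩ := h x hx
    rw [hexp] at h1 h2 h3
    rw [hup, hdn]
    exact ⟨h1, h2, h3⟩
  have hφ1 : (1 : ℝ) < d.totient := by
    by_contra h1
    have : A ≤ 0 := Real.log_nonpos hφ0.le (not_lt.1 h1)
    linarith
  have hs2 : Real.sqrt 2 ^ 2 = 2 := Real.sq_sqrt (by norm_num)
  have hs0 : 0 < Real.sqrt 2 := Real.sqrt_pos.2 (by norm_num)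
  -- no larger deviations
  have hx1 : 0 ≤ (1 + ε) * Real.sqrt 2 := by positivity
  have hno : (d.totient : ℝ) ^ (1 - ((1 + ε) * Real.sqrt 2) ^ 2 / 2 + ε) < 1 := by
    apply Real.rpow_lt_one_of_one_lt_of_neg hφ1
    rw [mul_pow, hs2]
    nlinarith
  obtain ⟨u1, u2, -⟩ := main _ hx1
  have hz : ∀ T : Finset ℕ, (T.card : ℝ) < 1 → ∀ a, a ∉ T := by
    intro T hT a ha
    have h1 : T.card < 1 := by exact_mod_cast hT
    have h2 := card_pos.2 ⟨a, ha⟩
    omega
  have hz1 := hz _ (lt_of_le_of_lt u1 hno)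
  have hz2 := hz _ (lt_of_le_of_lt u2 hno)
  -- the large deviations
  have hx2 : 0 ≤ (1 - ε) * Real.sqrt 2 := mul_nonneg (by linarith) hs0.le
  have hx2' : ((1 - ε) * Real.sqrt 2) ^ 2 ≤ 2 * (1 - ε) := by
    rw [mul_pow, hs2]
    nlinarith
  obtain ⟨w1, w2⟩ := (main _ hx2).2.2 hx2'
  have hpos : ∀ T : Finset ℕ, ∀ t : ℝ, (d.totient : ℝ) ^ t ≤ (T.card : ℝ) → T.Nonempty := by
    intro T t hT
    have h1 : (0 : ℝ) < T.card := lt_of_lt_of_le (Real.rpow_pos_of_pos hφ0 t) hT
    exact card_pos.1 (by exact_mod_cast h1)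
  refine ⟨fun a ha => ?_, ?_, ?_, main⟩
  · rw [abs_le]
    constructor
    · by_contra h1
      exact hz2 a (mem_filter.2 ⟨ha, by linarith⟩)
    · by_contra h1
      exact hz1 a (mem_filter.2 ⟨ha, by linarith⟩)
  · obtain ⟨a, ha⟩ := hpos _ _ w1
    exact ⟨a, (mem_filter.1 ha).1, (mem_filter.1 ha).2⟩
  · obtain ⟨a, ha⟩ := hpos _ _ w2
    exact ⟨a, (mem_filter.1 ha).1, (mem_filter.1 ha).2⟩

/-- **The square root law.**  For every `0 < ε < 1` there is `κ` such that for every `A`, all large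
`D` and all `D^(1 + ε) ≤ Y ≤ exp((log D)^A)` the following holds for all but `D / (log D)^A` of the
moduli `d ∈ (D/2, D]`.  Let `K ≤ (log D)^A` be such that the expected number `μ` of the primes in
a sample of `K` terms is at least `κ log φ(d)`.  Then all but `ε Y^K` of the sequences
`s_1, ..., s_K` from `[1, Y]` satisfy the square root law. -/
theorem result (ε : ℝ) (hε : 0 < ε) (hε1 : ε < 1) : ∃ κ : ℝ, 0 < κ ∧ ∀ A : ℕ, ∃ D₀ : ℕ, ∀ D Y : ℕ, D₀ ≤ D →
    (D : ℝ) ^ (1 + ε) ≤ Y → Real.log Y ≤ Real.log D ^ A →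
    ∃ B ⊆ Icc 1 D, (B.card : ℝ) ≤ D / Real.log D ^ A ∧ ∀ d ∈ Icc 1 D, D < 2 * d → d ∉ B → ∀ K : ℕ,
    κ * Real.log d.totient ≤ expected d Y K → (K : ℝ) ≤ Real.log D ^ A →
    (((Seqs Y K).filter (fun s => ¬ SqrtLaw ε d Y K s)).card : ℝ) ≤ ε * (Y : ℝ) ^ K := by
  obtain ⟨κ, hκ, h⟩ := mlaw_cl ε hε hε1.le
  refine ⟨κ, hκ, fun A => ?_⟩
  obtain ⟨D₀, h0⟩ := h A
  refine ⟨D₀, fun D Y hD hDY hlY => ?_⟩
  obtain ⟨B, hB1, hB2, hB3⟩ := h0 D Y hD hDY hlY
  refine ⟨B, hB1, hB2, fun d hd h2d hdB K hK hKA => ?_⟩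
  rw [expected_eq] at hK
  obtain ⟨h1, h2, h3⟩ := hB3 d hd h2d hdB K hK hKA
  rw [← expected_eq] at h2 h3
  refine le_trans ?_ h3
  apply Nat.cast_le.2
  apply card_le_card
  intro s hs
  rw [mem_filter] at hs ⊢
  exact ⟨hs.1, fun h4 => hs.2 (of_mlaw ε hε hε1 d Y K (mem_Icc.1 hd).1 s h1 h2 h4)⟩

end Pool.Agent.Results.MP_848d44_nt.SquareRootLaw
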